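import Pool.Agent.helper60.DB.SpecM

/-!
# Row bm:HE (MP_fb2c2a_nt): elementary facts on the degree of a rational power series.
-/

set_option autoImplicit false

namespace Pool.Agent.helper60.DB

open Polynomial

theorem HE_le {K : Type} [Field K] (f : PowerSeries K) (d : ℕ) (h : HtLe f d) :
    ∃ d' ≤ d, Ht f d' := by
  classical
  obtain ⟨N, D, hD, hN, hDd, hf⟩ := h
  set g := EuclideanDomain.gcd N D with hg
  have hg0 : g ≠ 0 := by
    intro h0
    exact hD (EuclideanDomain.gcd_eq_zero_iff.1 h0).2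
  obtain ⟨N', hN'⟩ : g ∣ N := EuclideanDomain.gcd_dvd_left N D
  obtain ⟨D', hD'⟩ : g ∣ D := EuclideanDomain.gcd_dvd_right N D
  have hD'0 : D' ≠ 0 := by
    rintro rfl
    rw [mul_zero] at hD'
    exact hD hD'
  have hcop : IsCoprime N' D' := by
    have h1 := EuclideanDomain.gcd_eq_gcd_ab N D
    refine ⟨EuclideanDomain.gcdA N D, EuclideanDomain.gcdB N D, ?_⟩
    apply mul_left_cancel₀ hg0
    calc g * (EuclideanDomain.gcdA N D * N' + EuclideanDomain.gcdB N D * D')
        = (g * N') * EuclideanDomain.gcdA N D + (g * D') * EuclideanDomain.gcdB N D := by ring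
      _ = N * EuclideanDomain.gcdA N D + D * EuclideanDomain.gcdB N D := by rw [← hN', ← hD']
      _ = g * 1 := by rw [← h1, mul_one]
  have hNd : N'.natDegree ≤ d := by
    by_cases h0 : N' = 0
    · rw [h0, natDegree_zero]; exact Nat.zero_le _
    · have h1 : N.natDegree = g.natDegree + N'.natDegree := by rw [hN', natDegree_mul hg0 h0]
      omega
  have hDd' : D'.natDegree ≤ d := by
    have h1 : D.natDegree = g.natDegree + D'.natDegree := by rw [hD', natDegree_mul hg0 hD'0]
    omega
  refine ⟨max N'.natDegree D'.natDegree, max_le hNd hDd', N', D', hcop, rfl, ?_⟩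
  have hgs : (g : PowerSeries K) ≠ 0 := by
    intro h0
    apply hg0
    exact Polynomial.coe_injective K (h0.trans Polynomial.coe_zero.symm)
  apply mul_left_cancel₀ hgs
  rw [← mul_assoc, ← Polynomial.coe_mul, ← Polynomial.coe_mul, ← hD', ← hN']
  exact hf

theorem HE : HE_stmt := by
  intro K _ f d
  refine ⟨HE_le f d, ?_, ?_, ?_, ?_⟩
  · rintro ⟨N, D, hc, hm, hf⟩
    refine ⟨N, D, ?_, ?_, ?_, hf⟩
    · rintro rfl
      rw [Polynomial.coe_zero, zero_mul] at hf
      have h1 : N = 0 := Polynomial.coe_injective K (hf.symm.trans Polynomial.coe_zero.symm)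
      rw [h1] at hc
      exact not_isCoprime_zero_zero hc
    · rw [← hm]; exact le_max_left _ _
    · rw [← hm]; exact le_max_right _ _
  · rintro ⟨N, D, hD, hf⟩
    obtain ⟨d', _, h⟩ := HE_le f (max N.natDegree D.natDegree)
      ⟨N, D, hD, le_max_left _ _, le_max_right _ _, hf⟩
    exact ⟨d', h⟩
  · refine ⟨0, 1, isCoprime_one_right, by simp, by simp⟩
  · refine ⟨X, 1, isCoprime_one_right, by simp, by simp⟩

end Pool.Agent.helper60.DB
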