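import Pool.Agent.helper60.DB.SpecC

/-!
# Row bc:RE (MP_fb2c2a_nt): the reflected polynomial.
-/

set_option autoImplicit false

namespace Pool.Agent.helper60.DB

open Polynomial Finset

theorem RE_der {K : Type} [Field K] (m : ℕ) (g : K[X]) (hg : g.natDegree ≤ m) (x : K) :
    x * (derivative g).eval x = ∑ j ∈ range (m + 1), (j : K) * (g.coeff j * x ^ j) := by
  have h1 : g = ∑ j ∈ range (m + 1), C (g.coeff j) * X ^ j :=
    g.as_sum_range_C_mul_X_pow' (by omega)
  have h2 : derivative g = ∑ j ∈ range (m + 1), C (g.coeff j * j) * X ^ (j - 1) := by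
    conv_lhs => rw [h1]
    rw [derivative_sum]
    apply Finset.sum_congr rfl
    intro j _
    rw [derivative_C_mul_X_pow]
  rw [h2, eval_finset_sum, Finset.mul_sum]
  apply Finset.sum_congr rfl
  intro j _
  rw [eval_mul, eval_C, eval_pow, eval_X]
  rcases Nat.eq_zero_or_pos j with h | h
  · subst h; simp
  · obtain ⟨i, rfl⟩ := Nat.exists_eq_succ_of_ne_zero (Nat.pos_iff_ne_zero.1 h)
    rw [Nat.succ_sub_one, pow_succ]
    ring

theorem RE_pow {K : Type} [Field K] (y : K) (hy : y ≠ 0) (m j : ℕ) (hj : j ≤ m) :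
    y ^ m * (1 / y) ^ (m - j) = y ^ j := by
  have h1 : y ^ m = y ^ j * y ^ (m - j) := by rw [← pow_add]; congr 1; omega
  rw [h1, mul_assoc, ← mul_pow, mul_one_div_cancel hy, one_pow, mul_one]

theorem RE : RE_stmt := by
  intro K _ B m f hB hf
  have hc : ∀ j, (ht m B f).coeff j = (reflect m f).coeff j * B ^ j := by
    intro j
    unfold ht
    rw [comp_C_mul_X_coeff]
  have hc1 : ∀ j ≤ m, (ht m B f).coeff j = f.coeff (m - j) * B ^ j := by
    intro j hj
    rw [hc, coeff_reflect, revAt_le hj]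
  have hd : (ht m B f).natDegree ≤ m := by
    rw [natDegree_le_iff_coeff_eq_zero]
    intro j hj
    rw [hc, coeff_reflect, revAt_eq_self_of_lt hj,
      coeff_eq_zero_of_natDegree_lt (lt_of_le_of_lt hf hj), zero_mul]
  refine ⟨hd, hc1, ?_⟩
  intro x hx
  have hy : B * x ≠ 0 := mul_ne_zero hB hx
  have key : ∀ c : ℕ → K, ∑ j ∈ range (m + 1), c (m - j) * ((ht m B f).coeff j * x ^ j) =
      (B * x) ^ m * ∑ i ∈ range (m + 1), c i * (f.coeff i * (1 / (B * x)) ^ i) := by
    intro c
    rw [Finset.mul_sum, ← Finset.sum_range_reflect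
      (fun i => (B * x) ^ m * (c i * (f.coeff i * (1 / (B * x)) ^ i)))]
    apply Finset.sum_congr rfl
    intro j hj
    have hj' : j ≤ m := by
      have := Finset.mem_range.1 hj
      omega
    have e1 : m + 1 - 1 - j = m - j := by omega
    rw [e1, hc1 j hj']
    have h1 := RE_pow (B * x) hy m j hj'
    calc c (m - j) * (f.coeff (m - j) * B ^ j * x ^ j)
        = c (m - j) * (f.coeff (m - j) * (B * x) ^ j) := by rw [mul_pow]; ring
      _ = c (m - j) * (f.coeff (m - j) * ((B * x) ^ m * (1 / (B * x)) ^ (m - j))) := by rw [h1]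
      _ = (B * x) ^ m * (c (m - j) * (f.coeff (m - j) * (1 / (B * x)) ^ (m - j))) := by ring
  have hev : (ht m B f).eval x = (B * x) ^ m * f.eval (1 / (B * x)) := by
    rw [eval_eq_sum_range' (lt_of_le_of_lt hd (Nat.lt_succ_self m)),
      eval_eq_sum_range' (lt_of_le_of_lt hf (Nat.lt_succ_self m))]
    have h1 := key (fun _ => 1)
    simp only [one_mul] at h1
    exact h1
  refine ⟨hev, ?_⟩
  have h2 := key (fun i => (i : K))
  have h3 := RE_der m f hf (1 / (B * x))
  rw [← h3] at h2
  rw [RE_der m (ht m B f) hd x, mul_assoc, ← h2,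
    eval_eq_sum_range' (lt_of_le_of_lt hd (Nat.lt_succ_self m)), Finset.mul_sum,
    ← Finset.sum_sub_distrib]
  apply Finset.sum_congr rfl
  intro j hj
  have hj' : j ≤ m := by
    have := Finset.mem_range.1 hj
    omega
  rw [Nat.cast_sub hj']
  ring

end Pool.Agent.helper60.DB
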